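import Pool.Agent.KS6_58.NL.B

/-!
# Mean bounded integral combinations of nilsequences

Q1 asks whether every multiple correlation sequence is `∫ N_y(n) dσ(y)` with nilsequences `N_y` such that
`y ↦ N_y(n)` is integrable for every `n`. An earlier result gives, for every bounded function `C` on `ℤ^ℓ`, such a
representation with continuous nilsequences that are bounded by a slowly growing function of `n`; the means
`∫ |N_y(n)| dσ(y)` are unbounded there. Here the means stay bounded, with the best constant: for every function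
`C : ℤ^ℓ → ℂ` (bounded or not) and every `ε > 0` there is a random circle nilsequence `N` with `E N(n) = C(n)` and
`E |N(n)| ≤ |C(n)| + ε` for all `n`; if `|C| ≤ B`, then moreover `|N(n)| ≤ B M(n)` surely.

Idea. Rotate the circle at random: `y` is uniformly distributed on the torus `(ℝ/ℤ)^ℓ`, and `n · y` is the orbit
point of `n`. For a finite set `B_k` of integer points put `P_k(n) = ∑_{b ∈ B_k} C(b) φ(n · y - b · y)`, with a tent
function `φ` of a small radius. Then `P_k = C` on `B_k` and `E |P_k(n)|` is small for all `n` outside of `B_k`,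
because `(n - b) · y` is uniformly distributed on the circle. A second random variable picks a term of the
telescoping series `C = P_0 + (P_1 - P_0) + (P_2 - P_1) + …`.
-/

set_option autoImplicit false

open MeasureTheory Set Pool.Agent.KS6_58.NL

namespace Pool.Agent.Results.MP_b4ed41_an.MeanBounded

/-- `N : ℤ^ℓ → ℂ` is a basic 1-step nilsequence on the circle `ℝ/ℤ` (`G = ℝ`, `Γ = ℤ`) with a continuous
function `F` and the elements `β_1, …, β_ℓ` of `G`: `N(n) = F(n_1 β_1 + … + n_ℓ β_ℓ)`. -/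
def CircleNilseq (ℓ : ℕ) (N : (Fin ℓ → ℤ) → ℂ) : Prop :=
  ∃ (F : C(UnitAddCircle, ℂ)) (b : Fin ℓ → ℝ),
    ∀ n : Fin ℓ → ℤ, N n = F ((∑ i, (n i : ℝ) * b i : ℝ) : UnitAddCircle)

/-- A countable set of points of `[0,1]`. -/
noncomputable def yk (k : ℕ) : Set.Icc (0 : ℝ) 1 :=
  ⟨1 / ((k : ℝ) + 1), by positivity, by
    rw [div_le_one (by positivity)]
    have : (0 : ℝ) ≤ k := Nat.cast_nonneg k
    linarith⟩

theorem yk_inj : Function.Injective yk := by
  intro a b h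
  have h1 : 1 / ((a : ℝ) + 1) = 1 / ((b : ℝ) + 1) := congrArg Subtype.val h
  have ha : (a : ℝ) + 1 ≠ 0 := by positivity
  have hb : (b : ℝ) + 1 ≠ 0 := by positivity
  field_simp at h1
  have : (a : ℝ) = b := by linarith
  exact_mod_cast this

/-- The measure on `[0,1]`: the point `yk k` has measure `2^{-(k+1)}`. -/
noncomputable def sg : Measure (Set.Icc (0 : ℝ) 1) :=
  Measure.sum (fun k : ℕ => ((2 : ENNReal)⁻¹ ^ (k + 1)) • Measure.dirac (yk k))

theorem sg_univ : sg Set.univ = 1 := by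
  rw [sg, Measure.sum_apply _ MeasurableSet.univ]
  simp only [Measure.smul_apply, Measure.dirac_apply' _ MeasurableSet.univ, Set.indicator_univ,
    Pi.one_apply, smul_eq_mul, mul_one]
  simp only [pow_succ]
  rw [ENNReal.tsum_mul_right, ENNReal.tsum_geometric, ENNReal.one_sub_inv_two, inv_inv]
  exact ENNReal.mul_inv_cancel two_ne_zero ENNReal.ofNat_ne_top

instance : IsProbabilityMeasure sg := ⟨sg_univ⟩

theorem sg_single (k : ℕ) : sg {yk k} = (2 : ENNReal)⁻¹ ^ (k + 1) := by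
  rw [sg, Measure.sum_apply _ (measurableSet_singleton _)]
  rw [tsum_eq_single k]
  · simp [Measure.smul_apply]
  · intro j hj
    have : yk j ∉ ({yk k} : Set (Set.Icc (0 : ℝ) 1)) := by
      intro h
      exact hj (yk_inj h)
    simp [Measure.smul_apply, Measure.dirac_apply' _ (measurableSet_singleton _), this]

/-- The weight `2^{k+1}` at the point `yk k`. -/
noncomputable def wt (k : ℕ) (s : Set.Icc (0 : ℝ) 1) : ℝ :=
  ({yk k} : Set (Set.Icc (0 : ℝ) 1)).indicator (fun _ => (2 : ℝ) ^ (k + 1)) s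

theorem wt_nonneg (k : ℕ) (s : Set.Icc (0 : ℝ) 1) : 0 ≤ wt k s :=
  indicator_nonneg (fun _ _ => by positivity) _

theorem wt_measurable (k : ℕ) : Measurable (wt k) :=
  measurable_const.indicator (measurableSet_singleton _)

theorem wt_integrable (k : ℕ) : Integrable (wt k) sg :=
  (integrable_const _).indicator (measurableSet_singleton _)

theorem wt_integral (k : ℕ) : ∫ s, wt k s ∂sg = 1 := by
  unfold wt
  rw [integral_indicator_const _ (measurableSet_singleton _), measureReal_def, sg_single]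
  simp only [ENNReal.toReal_pow, ENNReal.toReal_inv, ENNReal.toReal_ofNat, smul_eq_mul]
  rw [← mul_pow]
  norm_num

theorem wt_self (k : ℕ) : wt k (yk k) = 2 ^ (k + 1) := by
  simp [wt]

theorem wt_ne {j k : ℕ} (h : j ≠ k) : wt k (yk j) = 0 := by
  unfold wt
  rw [indicator_of_notMem]
  intro h'
  exact h (yk_inj h')

section main

variable {ℓ : ℕ} (B : ℕ → Finset (Fin ℓ → ℤ)) (δ : ℕ → ℝ) (C : (Fin ℓ → ℤ) → ℂ)

/-- The `k`-th approximation. -/
noncomputable def PP (k : ℕ) (y : Tor ℓ) (n : Fin ℓ → ℤ) : ℂ := lev (B k) (δ k) C y n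

/-- The differences. -/
noncomputable def DD (k : ℕ) (y : Tor ℓ) (n : Fin ℓ → ℤ) : ℂ :=
  PP B δ C (k + 1) y n - PP B δ C k y n

open Classical in
/-- The random nilsequence. -/
noncomputable def NN (z : Set.Icc (0 : ℝ) 1 × Tor ℓ) (n : Fin ℓ → ℤ) : ℂ :=
  if Good z.2 then
    (PP B δ C 0 z.2 n + if h : ∃ k, yk k = z.1 then (2 : ℂ) ^ (h.choose + 1) * DD B δ C h.choose z.2 n else 0)
  else 0

theorem NN_yk (k : ℕ) {y : Tor ℓ} (hy : Good y) (n : Fin ℓ → ℤ) :
    NN B δ C (yk k, y) n = PP B δ C 0 y n + (2 : ℂ) ^ (k + 1) * DD B δ C k y n := by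
  have h : ∃ j, yk j = yk k := ⟨k, rfl⟩
  have hk : h.choose = k := yk_inj h.choose_spec
  unfold NN
  simp only
  rw [if_pos hy, dif_pos h, hk]

theorem NN_none {s : Set.Icc (0 : ℝ) 1} (hs : ¬ ∃ k, yk k = s) {y : Tor ℓ} (hy : Good y)
    (n : Fin ℓ → ℤ) : NN B δ C (s, y) n = PP B δ C 0 y n := by
  unfold NN
  simp only
  rw [if_pos hy, dif_neg hs, add_zero]

theorem NN_bad (s : Set.Icc (0 : ℝ) 1) {y : Tor ℓ} (hy : ¬ Good y)
    (n : Fin ℓ → ℤ) : NN B δ C (s, y) n = 0 := by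
  unfold NN
  rw [if_neg hy]

/-- `P_k` is a circle nilsequence, with the same `β` for all `k`. -/
theorem PP_form (y : Tor ℓ) : ∃ b : Fin ℓ → ℝ, ∀ k, ∃ F : C(UnitAddCircle, ℂ), ∀ n : Fin ℓ → ℤ,
    PP B δ C k y n = F ((∑ i, (n i : ℝ) * b i : ℝ) : UnitAddCircle) := by
  have hb : ∀ i, ∃ b : ℝ, ((b : ℝ) : UnitAddCircle) = y i := fun i =>
    QuotientAddGroup.mk_surjective (y i)
  choose b hb using hb
  refine ⟨b, fun k => ⟨⟨fun x => ∑ c ∈ B k, C c * (tent (rad (B k) (δ k) y) (x - dot c y) : ℂ), ?_⟩, ?_⟩⟩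
  · refine continuous_finsetSum _ fun c _ => continuous_const.mul ?_
    exact Complex.continuous_ofReal.comp ((tent_continuous _).comp (continuous_id.sub continuous_const))
  · intro n
    have h : ((∑ i, (n i : ℝ) * b i : ℝ) : UnitAddCircle) = dot n y := by
      unfold dot
      have h1 : ((∑ i, (n i : ℝ) * b i : ℝ) : UnitAddCircle) =
          ∑ i, (((n i : ℝ) * b i : ℝ) : UnitAddCircle) :=
        map_sum (QuotientAddGroup.mk' (AddSubgroup.zmultiples (1 : ℝ))) (fun i => (n i : ℝ) * b i) Finset.univ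
      rw [h1]
      refine Finset.sum_congr rfl fun i _ => ?_
      rw [← hb i, ← AddCircle.coe_zsmul, zsmul_eq_mul]
    rw [h]
    rfl

theorem NN_nilseq (z : Set.Icc (0 : ℝ) 1 × Tor ℓ) : CircleNilseq ℓ (NN B δ C z) := by
  obtain ⟨s, y⟩ := z
  by_cases hy : Good y
  · obtain ⟨b, hF⟩ := PP_form B δ C y
    choose F hF using hF
    by_cases hs : ∃ k, yk k = s
    · obtain ⟨k, rfl⟩ := hs
      refine ⟨F 0 + (2 : ℂ) ^ (k + 1) • (F (k + 1) - F k), b, fun n => ?_⟩
      rw [NN_yk B δ C k hy n, DD, hF 0, hF (k + 1), hF k]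
      rfl
    · refine ⟨F 0, b, fun n => ?_⟩
      rw [NN_none B δ C hs hy n, hF 0]
  · refine ⟨0, fun _ => 0, fun n => ?_⟩
    rw [NN_bad B δ C s hy n]
    rfl

variable {B δ}

theorem DD_zero (hδ : ∀ k, 0 < δ k) (hδ2 : ∀ k, δ k ≤ 1 / 2) {n : Fin ℓ → ℤ} {e : ℕ}
    (he : ∀ k, e ≤ k → n ∈ B k) {y : Tor ℓ} (hy : Good y) {k : ℕ} (hk : e ≤ k) :
    DD B δ C k y n = 0 := by
  unfold DD PP
  rw [lev_mem (B (k + 1)) (hδ _) (hδ2 _) C hy (he _ (by omega)),
    lev_mem (B k) (hδ _) (hδ2 _) C hy (he _ hk), sub_self]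

/-- The function `NN` for a fixed `n` as a finite sum. -/
theorem NN_sum (hδ : ∀ k, 0 < δ k) (hδ2 : ∀ k, δ k ≤ 1 / 2) {n : Fin ℓ → ℤ} {e : ℕ}
    (he : ∀ k, e ≤ k → n ∈ B k) {y : Tor ℓ} (hy : Good y) (s : Set.Icc (0 : ℝ) 1) :
    NN B δ C (s, y) n = PP B δ C 0 y n + ∑ k ∈ Finset.range e, (wt k s : ℂ) * DD B δ C k y n := by
  by_cases hs : ∃ k, yk k = s
  · obtain ⟨k, rfl⟩ := hs
    rw [NN_yk B δ C k hy n]
    congr 1
    by_cases hk : k < e
    · rw [Finset.sum_eq_single k]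
      · rw [wt_self]
        push_cast
        ring
      · intro j _ hj
        rw [wt_ne (Ne.symm hj)]
        simp
      · intro h
        exact absurd (Finset.mem_range.mpr hk) h
    · rw [DD_zero C hδ hδ2 he hy (not_lt.mp hk), mul_zero]
      symm
      refine Finset.sum_eq_zero fun j hj => ?_
      have hjk : k ≠ j := by
        have := Finset.mem_range.mp hj
        omega
      rw [wt_ne hjk]
      simp
  · rw [NN_none B δ C hs hy n]
    have h0 : ∑ k ∈ Finset.range e, (wt k s : ℂ) * DD B δ C k y n = 0 := by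
      refine Finset.sum_eq_zero fun j _ => ?_
      have : wt j s = 0 := by
        unfold wt
        rw [indicator_of_notMem]
        intro h
        exact hs ⟨j, h.symm⟩
      rw [this]
      simp
    rw [h0, add_zero]

theorem PP_integrable (hδ : ∀ k, 0 < δ k) (k : ℕ) (n : Fin ℓ → ℤ) :
    Integrable fun y : Tor ℓ => PP B δ C k y n := integrable_lev (B k) (hδ k) C n

theorem DD_integrable (hδ : ∀ k, 0 < δ k) (k : ℕ) (n : Fin ℓ → ℤ) :
    Integrable fun y : Tor ℓ => DD B δ C k y n :=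
  (PP_integrable C hδ (k + 1) n).sub (PP_integrable C hδ k n)

theorem ae_good_prod : ∀ᵐ z : Set.Icc (0 : ℝ) 1 × Tor ℓ ∂(sg.prod volume), Good z.2 :=
  (Measure.quasiMeasurePreserving_snd (μ := sg) (ν := (volume : Measure (Tor ℓ)))).ae ae_good

/-- The mean of `NN`. -/
theorem mean_NN (hδ : ∀ k, 0 < δ k) (hδ2 : ∀ k, δ k ≤ 1 / 2) {n : Fin ℓ → ℤ} {e : ℕ}
    (he : ∀ k, e ≤ k → n ∈ B k) :
    Integrable (fun z => NN B δ C z n) (sg.prod volume) ∧
      ∫ z, NN B δ C z n ∂(sg.prod volume) = C n ∧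
      ∫ z, ‖NN B δ C z n‖ ∂(sg.prod volume) ≤
        (∫ y : Tor ℓ, ‖PP B δ C 0 y n‖) + ∑ k ∈ Finset.range e, ∫ y : Tor ℓ, ‖DD B δ C k y n‖ := by
  have hae : (fun z : Set.Icc (0 : ℝ) 1 × Tor ℓ => NN B δ C z n) =ᵐ[sg.prod volume]
      fun z => (1 : ℂ) * PP B δ C 0 z.2 n + ∑ k ∈ Finset.range e, (wt k z.1 : ℂ) * DD B δ C k z.2 n := by
    filter_upwards [ae_good_prod] with z hz
    rw [one_mul]
    exact NN_sum C hδ hδ2 he hz z.1
  have hi0 : Integrable (fun z : Set.Icc (0 : ℝ) 1 × Tor ℓ => (1 : ℂ) * PP B δ C 0 z.2 n)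
      (sg.prod volume) :=
    Integrable.mul_prod (f := fun _ : Set.Icc (0 : ℝ) 1 => (1 : ℂ)) (integrable_const _)
      (PP_integrable C hδ 0 n)
  have hi1 : ∀ k, Integrable (fun z : Set.Icc (0 : ℝ) 1 × Tor ℓ => (wt k z.1 : ℂ) * DD B δ C k z.2 n)
      (sg.prod volume) := fun k =>
    Integrable.mul_prod (f := fun s : Set.Icc (0 : ℝ) 1 => (wt k s : ℂ)) (wt_integrable k).ofReal
      (DD_integrable C hδ k n)
  have hi : Integrable (fun z : Set.Icc (0 : ℝ) 1 × Tor ℓ => (1 : ℂ) * PP B δ C 0 z.2 n +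
      ∑ k ∈ Finset.range e, (wt k z.1 : ℂ) * DD B δ C k z.2 n) (sg.prod volume) :=
    hi0.add (integrable_finsetSum _ fun k _ => hi1 k)
  refine ⟨hi.congr hae.symm, ?_, ?_⟩
  · rw [integral_congr_ae hae, integral_add hi0 (integrable_finsetSum _ fun k _ => hi1 k),
      integral_finsetSum _ fun k _ => hi1 k]
    have e0 : ∫ z : Set.Icc (0 : ℝ) 1 × Tor ℓ, (1 : ℂ) * PP B δ C 0 z.2 n ∂(sg.prod volume) =
        ∫ y : Tor ℓ, PP B δ C 0 y n := by
      rw [integral_prod_mul (fun _ : Set.Icc (0 : ℝ) 1 => (1 : ℂ)) (fun y : Tor ℓ => PP B δ C 0 y n)]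
      simp
    have e1 : ∀ k, ∫ z : Set.Icc (0 : ℝ) 1 × Tor ℓ, (wt k z.1 : ℂ) * DD B δ C k z.2 n ∂(sg.prod volume) =
        (∫ y : Tor ℓ, PP B δ C (k + 1) y n) - ∫ y : Tor ℓ, PP B δ C k y n := by
      intro k
      rw [integral_prod_mul (fun s : Set.Icc (0 : ℝ) 1 => (wt k s : ℂ)) (fun y : Tor ℓ => DD B δ C k y n),
        integral_complex_ofReal, wt_integral]
      unfold DD
      rw [integral_sub (PP_integrable C hδ (k + 1) n) (PP_integrable C hδ k n)]
      simp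
    rw [e0, Finset.sum_congr rfl fun k _ => e1 k,
      Finset.sum_range_sub (fun k => ∫ y : Tor ℓ, PP B δ C k y n), add_sub_cancel]
    have e2 : (fun y : Tor ℓ => PP B δ C e y n) =ᵐ[volume] fun _ => C n := by
      filter_upwards [ae_good] with y hy
      exact lev_mem (B e) (hδ e) (hδ2 e) C hy (he e le_rfl)
    rw [integral_congr_ae e2]
    simp
  · have hj0 : Integrable (fun z : Set.Icc (0 : ℝ) 1 × Tor ℓ => (1 : ℝ) * ‖PP B δ C 0 z.2 n‖)
        (sg.prod volume) :=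
      Integrable.mul_prod (f := fun _ : Set.Icc (0 : ℝ) 1 => (1 : ℝ)) (integrable_const _)
        (PP_integrable C hδ 0 n).norm
    have hj1 : ∀ k, Integrable (fun z : Set.Icc (0 : ℝ) 1 × Tor ℓ => wt k z.1 * ‖DD B δ C k z.2 n‖)
        (sg.prod volume) := fun k =>
      Integrable.mul_prod (f := fun s : Set.Icc (0 : ℝ) 1 => wt k s) (wt_integrable k)
        (DD_integrable C hδ k n).norm
    calc ∫ z, ‖NN B δ C z n‖ ∂(sg.prod volume) ≤
        ∫ z : Set.Icc (0 : ℝ) 1 × Tor ℓ, ((1 : ℝ) * ‖PP B δ C 0 z.2 n‖ +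
          ∑ k ∈ Finset.range e, wt k z.1 * ‖DD B δ C k z.2 n‖) ∂(sg.prod volume) := by
          refine integral_mono_ae (hi.congr hae.symm).norm
            (hj0.add (integrable_finsetSum _ fun k _ => hj1 k)) ?_
          filter_upwards [hae] with z hz
          rw [hz]
          refine (norm_add_le _ _).trans (add_le_add (by rw [one_mul, one_mul]) ?_)
          refine (norm_sum_le _ _).trans (Finset.sum_le_sum fun k _ => ?_)
          rw [norm_mul, Complex.norm_real, Real.norm_of_nonneg (wt_nonneg k z.1)]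
      _ = _ := by
          rw [integral_add hj0 (integrable_finsetSum _ fun k _ => hj1 k),
            integral_finsetSum _ fun k _ => hj1 k,
            integral_prod_mul (fun _ : Set.Icc (0 : ℝ) 1 => (1 : ℝ)) (fun y : Tor ℓ => ‖PP B δ C 0 y n‖)]
          congr 1
          · simp
          · refine Finset.sum_congr rfl fun k _ => ?_
            rw [integral_prod_mul (fun s : Set.Icc (0 : ℝ) 1 => wt k s)
              (fun y : Tor ℓ => ‖DD B δ C k y n‖), wt_integral, one_mul]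

end main

/-- The pointwise bound. -/
theorem NN_bound {ℓ : ℕ} {B : ℕ → Finset (Fin ℓ → ℤ)} {δ : ℕ → ℝ} (C : (Fin ℓ → ℤ) → ℂ)
    (hδ : ∀ k, 0 < δ k) (hδ2 : ∀ k, δ k ≤ 1 / 2) (hB : Monotone B) (M : (Fin ℓ → ℤ) → ℝ)
    (hM1 : ∀ n, 1 ≤ M n) (hBM : ∀ k n, n ∉ B k → 1 + 2 ^ (k + 2) ≤ M n)
    {K : ℝ} (hC : ∀ n, ‖C n‖ ≤ K) (z : Set.Icc (0 : ℝ) 1 × Tor ℓ) (n : Fin ℓ → ℤ) :
    ‖NN B δ C z n‖ ≤ K * M n := by
  have hK : 0 ≤ K := (norm_nonneg _).trans (hC n)
  obtain ⟨s, y⟩ := z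
  by_cases hy : Good y
  · have hP : ∀ k, ‖PP B δ C k y n‖ ≤ K := fun k => lev_norm_le (B k) (hδ k) (hδ2 k) C hC hy n
    have h1 : K ≤ K * M n := le_mul_of_one_le_right hK (hM1 n)
    by_cases hs : ∃ k, yk k = s
    · obtain ⟨k, rfl⟩ := hs
      rw [NN_yk B δ C k hy n]
      by_cases hn : n ∈ B k
      · rw [DD_zero C hδ hδ2 (e := k) (fun j hj => hB hj hn) hy le_rfl, mul_zero, add_zero]
        exact (hP 0).trans h1
      · have h2 : ‖(2 : ℂ) ^ (k + 1)‖ = (2 : ℝ) ^ (k + 1) := by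
          rw [norm_pow]
          norm_num
        have h3 : ‖DD B δ C k y n‖ ≤ K + K := (norm_sub_le _ _).trans (add_le_add (hP _) (hP _))
        calc ‖PP B δ C 0 y n + (2 : ℂ) ^ (k + 1) * DD B δ C k y n‖ ≤
            ‖PP B δ C 0 y n‖ + ‖(2 : ℂ) ^ (k + 1) * DD B δ C k y n‖ := norm_add_le _ _
          _ ≤ K + 2 ^ (k + 1) * (K + K) := by
              rw [norm_mul, h2]
              exact add_le_add (hP 0) (mul_le_mul_of_nonneg_left h3 (by positivity))
          _ = K * (1 + 2 ^ (k + 2)) := by ring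
          _ ≤ K * M n := mul_le_mul_of_nonneg_left (hBM k n hn) hK
    · rw [NN_none B δ C hs hy n]
      exact (hP 0).trans h1
  · rw [NN_bad B δ C s hy n, norm_zero]
    exact mul_nonneg hK (zero_le_one.trans (hM1 n))

/-- For every `ℓ` there is a Borel probability measure `σ` on the compact metric space `Y = [0,1] × (ℝ/ℤ)^ℓ` such
that for all functions `C : ℤ^ℓ → ℂ` (in particular for every multiple correlation sequence), all `ε > 0` and all
functions `M ≥ 1` on `ℤ^ℓ` that tend to infinity there are basic 1-step nilsequences `N_y` on the circle, `y ∈ Y`, with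
continuous functions `F`, such that for all `n` the function `y ↦ N_y(n)` is integrable, `∫ N_y(n) dσ(y) = C(n)` and
`∫ |N_y(n)| dσ(y) ≤ |C(n)| + ε`; and if `|C| ≤ K`, then moreover `|N_y(n)| ≤ K M(n)` for all `y` and `n`. -/
theorem result (ℓ : ℕ) : ∃ σ : Measure (Set.Icc (0 : ℝ) 1 × (Fin ℓ → UnitAddCircle)),
    IsProbabilityMeasure σ ∧
    ∀ (C : (Fin ℓ → ℤ) → ℂ) (ε : ℝ) (M : (Fin ℓ → ℤ) → ℝ), 0 < ε → (∀ n, 1 ≤ M n) →
      Filter.Tendsto M Filter.cofinite Filter.atTop →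
      ∃ N : Set.Icc (0 : ℝ) 1 × (Fin ℓ → UnitAddCircle) → (Fin ℓ → ℤ) → ℂ,
        (∀ y, CircleNilseq ℓ (N y)) ∧
        (∀ n, Integrable (fun y => N y n) σ ∧ ∫ y, N y n ∂σ = C n ∧
          ∫ y, ‖N y n‖ ∂σ ≤ ‖C n‖ + ε) ∧
        ∀ K : ℝ, (∀ n, ‖C n‖ ≤ K) → ∀ y n, ‖N y n‖ ≤ K * M n := by
  classical
  refine ⟨sg.prod volume, inferInstance, fun C ε M hε hM1 hM => ?_⟩
  have hfin : ∀ k : ℕ, {n : Fin ℓ → ℤ | M n < 1 + 2 ^ (k + 2)}.Finite := fun k => by
    have h := hM.eventually (Filter.eventually_ge_atTop ((1 : ℝ) + 2 ^ (k + 2)))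
    rw [Filter.eventually_cofinite] at h
    refine h.subset fun n hn => ?_
    simpa using hn
  let B : ℕ → Finset (Fin ℓ → ℤ) := fun k => (hfin k).toFinset
  have hmem : ∀ k n, n ∈ B k ↔ M n < 1 + 2 ^ (k + 2) := fun k n => (hfin k).mem_toFinset
  have hBm : Monotone B := by
    intro j k hjk n hn
    rw [hmem] at hn ⊢
    refine hn.trans_le ?_
    have : (2 : ℝ) ^ (j + 2) ≤ 2 ^ (k + 2) := pow_le_pow_right₀ one_le_two (by omega)
    linarith
  have hBM : ∀ k n, n ∉ B k → 1 + 2 ^ (k + 2) ≤ M n := fun k n h => by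
    rw [hmem, not_lt] at h
    exact h
  have hex : ∀ n, ∃ k, n ∈ B k := by
    intro n
    obtain ⟨k, hk⟩ := pow_unbounded_of_one_lt (M n) (one_lt_two : (1 : ℝ) < 2)
    refine ⟨k, (hmem k n).mpr ?_⟩
    have : (2 : ℝ) ^ k ≤ 2 ^ (k + 2) := pow_le_pow_right₀ one_le_two (by omega)
    linarith
  let S : ℕ → ℝ := fun k => ∑ b ∈ B k, ‖C b‖
  have hS : ∀ k, 0 ≤ S k := fun k => Finset.sum_nonneg fun _ _ => norm_nonneg _
  let δ : ℕ → ℝ := fun k => min (1 / 2) (ε * (1 / 2) ^ (k + 3) / (1 + S k))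
  have hδ : ∀ k, 0 < δ k := fun k => by
    have := hS k
    exact lt_min (by norm_num) (by positivity)
  have hδ2 : ∀ k, δ k ≤ 1 / 2 := fun k => min_le_left _ _
  have hδS : ∀ k, 2 * δ k * S k ≤ ε * (1 / 2) ^ (k + 2) := by
    intro k
    have h0 := hS k
    have h1 : δ k ≤ ε * (1 / 2) ^ (k + 3) / (1 + S k) := min_le_right _ _
    have h2 : δ k * (1 + S k) ≤ ε * (1 / 2) ^ (k + 3) := by
      rwa [le_div_iff₀ (by positivity)] at h1
    have h3 := (hδ k).le
    have h4 : ε * (1 / 2) ^ (k + 2) = 2 * (ε * (1 / 2) ^ (k + 3)) := by ring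
    rw [h4]
    nlinarith
  refine ⟨NN B δ C, NN_nilseq B δ C, fun n => ?_, fun K hK y n =>
    NN_bound C hδ hδ2 hBm M hM1 hBM hK y n⟩
  let e : ℕ := Nat.find (hex n)
  have he0 : n ∈ B e := Nat.find_spec (hex n)
  have he : ∀ k, e ≤ k → n ∈ B k := fun k hk => hBm hk he0
  have hmin : ∀ k, k < e → n ∉ B k := fun k hk => Nat.find_min (hex n) hk
  obtain ⟨h1, h2, h3⟩ := mean_NN C hδ hδ2 he
  refine ⟨h1, h2, h3.trans ?_⟩
  let u : ℕ → ℝ := fun k => ∫ y : Tor ℓ, ‖PP B δ C k y n‖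
  have hue : u e = ‖C n‖ := by
    have e2 : (fun y : Tor ℓ => ‖PP B δ C e y n‖) =ᵐ[volume] fun _ => ‖C n‖ := by
      filter_upwards [ae_good] with y hy
      rw [show PP B δ C e y n = C n from lev_mem (B e) (hδ e) (hδ2 e) C hy he0]
    show ∫ y : Tor ℓ, ‖PP B δ C e y n‖ = ‖C n‖
    rw [integral_congr_ae e2]
    simp
  have hu : ∀ k, k < e → u k ≤ ε * (1 / 2) ^ (k + 2) := fun k hk =>
    (mean_lev (B k) (hδ k) C (hmin k hk)).trans (hδS k)
  have hD : ∀ k, ∫ y : Tor ℓ, ‖DD B δ C k y n‖ ≤ u (k + 1) + u k := by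
    intro k
    have hi := (PP_integrable (B := B) C hδ (k + 1) n).norm
    have hj := (PP_integrable (B := B) C hδ k n).norm
    show _ ≤ (∫ y : Tor ℓ, ‖PP B δ C (k + 1) y n‖) + ∫ y : Tor ℓ, ‖PP B δ C k y n‖
    rw [← integral_add hi hj]
    exact integral_mono (DD_integrable C hδ k n).norm (hi.add hj) fun y => norm_sub_le _ _
  have hgeo : ∀ j : ℕ, ∑ k ∈ Finset.range j, ((1 : ℝ) / 2) ^ (k + 2) ≤ 1 / 2 := by
    intro j
    have h : ∑ k ∈ Finset.range j, ((1 : ℝ) / 2) ^ (k + 2) = 1 / 2 - (1 / 2) ^ (j + 1) := by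
      induction j with
      | zero => norm_num
      | succ j ih =>
        rw [Finset.sum_range_succ, ih]
        ring
    rw [h]
    have : (0 : ℝ) ≤ (1 / 2) ^ (j + 1) := by positivity
    linarith
  have hsum1 : ∑ k ∈ Finset.range (e + 1), u k = ∑ k ∈ Finset.range e, u (k + 1) + u 0 :=
    Finset.sum_range_succ' u e
  have hsum2 : ∑ k ∈ Finset.range (e + 1), u k = ∑ k ∈ Finset.range e, u k + u e :=
    Finset.sum_range_succ u e
  have hsum3 : ∑ k ∈ Finset.range e, ∫ y : Tor ℓ, ‖DD B δ C k y n‖ ≤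
      ∑ k ∈ Finset.range e, u (k + 1) + ∑ k ∈ Finset.range e, u k := by
    rw [← Finset.sum_add_distrib]
    exact Finset.sum_le_sum fun k _ => hD k
  have hsum4 : ∑ k ∈ Finset.range e, u k ≤ ε / 2 := by
    calc ∑ k ∈ Finset.range e, u k ≤ ∑ k ∈ Finset.range e, ε * (1 / 2) ^ (k + 2) :=
          Finset.sum_le_sum fun k hk => hu k (Finset.mem_range.mp hk)
      _ = ε * ∑ k ∈ Finset.range e, (1 / 2) ^ (k + 2) := by rw [Finset.mul_sum]
      _ ≤ ε * (1 / 2) := mul_le_mul_of_nonneg_left (hgeo e) hε.le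
      _ = ε / 2 := by ring
  have hu0 : (∫ y : Tor ℓ, ‖PP B δ C 0 y n‖) = u 0 := rfl
  rw [hu0]
  linarith

end Pool.Agent.Results.MP_b4ed41_an.MeanBounded
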